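import Pool.Agent.Helper449_Dope.Pattern

/-!
# Tuples with the same dope matrices

For every `m ≥ 4` there are two `m`-tuples of distinct complex numbers with the same dope matrices
in every degree which are not related by an affine map and a field automorphism.

The tuples are `(0, 1, x, x ^ 2, ..., x ^ (m - 2))` and `(0, 1, x, x ^ 3, ..., x ^ (m - 1))` with `x`
transcendental. For all tuples `(0, x ^ w_1, ..., x ^ w_r)` with different exponents and `x`
transcendental the number of the pairs `(i, j)`, `j ≤ deg P`, such that the derivative of order `j`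
of `P` vanishes at the node `i` is at most `deg P`. This is proved by a Rolle count for the leading
forms of `P (x ^ w * t)`, for each scale `w` (file `Lead.lean`), and it implies that the dope
matrices are the same as for generic tuples (file `Pattern.lean`).
-/

set_option autoImplicit false

namespace Pool.Agent.Results.MP_344d54_co.FourNodes

open Polynomial Pool.Agent.Helper449_Dope

open Classical in
/-- The dope matrix of `P` (of degree `n`) with respect to `Λ`: the entry `(i, j)` is `1` if the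
`j`-th derivative of `P` vanishes at `Λ i` and `0` otherwise, `0 ≤ j ≤ n`. -/
noncomputable def dopeMatrix {m : ℕ} (Λ : Fin m → ℂ) (n : ℕ) (P : ℂ[X]) :
    Matrix (Fin m) (Fin (n + 1)) ℕ :=
  Matrix.of fun i j => if (derivative^[(j : ℕ)] P).eval (Λ i) = 0 then 1 else 0

/-- The set of the dope matrices of the polynomials of degree `n`. -/
def dopeSet {m : ℕ} (n : ℕ) (Λ : Fin m → ℂ) : Set (Matrix (Fin m) (Fin (n + 1)) ℕ) :=
  {M | ∃ P : ℂ[X], P.degree = n ∧ M = dopeMatrix Λ n P}

/-- The equivalence `Λ ∼ Λ'`. -/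
def DopeEquiv {m : ℕ} (Λ Λ' : Fin m → ℂ) : Prop := ∀ n : ℕ, dopeSet n Λ = dopeSet n Λ'

theorem dopeSet_subset {m : ℕ} (hm : 0 < m) {Λ Λ' : Fin m → ℂ} (h : PB Λ) (h' : PB Λ') (n : ℕ) :
    dopeSet n Λ ⊆ dopeSet n Λ' := by
  rintro M ⟨P, hP, rfl⟩
  obtain ⟨P', h1, h2⟩ := h.transfer h' hm hP
  refine ⟨P', h1, ?_⟩
  ext i j
  simp only [dopeMatrix, Matrix.of_apply]
  have h3 := h2 i j (by omega)
  simp only [h3]

theorem dopeEquiv {m : ℕ} (hm : 0 < m) {Λ Λ' : Fin m → ℂ} (h : PB Λ) (h' : PB Λ') :
    DopeEquiv Λ Λ' := fun n =>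
  Set.Subset.antisymm (dopeSet_subset hm h h' n) (dopeSet_subset hm h' h n)

theorem pow_inj {x : ℂ} (hx : Transcendental ℚ x) {a b : ℕ} (h : x ^ a = x ^ b) : a = b := by
  by_contra hab
  apply hx
  refine ⟨X ^ a - X ^ b, ?_, by simp [h]⟩
  intro h1
  have h2 := congrArg (fun p => p.coeff a) h1
  simp [coeff_X_pow, hab] at h2

theorem nodes_injective {r : ℕ} {x : ℂ} (hx : Transcendental ℚ x) {w : Fin r → ℕ}
    (hw : Function.Injective w) : Function.Injective (nodes x w) := by
  have hx0 : x ≠ 0 := by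
    rintro rfl
    exact hx isAlgebraic_zero
  intro i j h
  refine Fin.cases (motive := fun i => nodes x w i = nodes x w j → i = j) ?_ (fun i => ?_) i h
  · refine Fin.cases (motive := fun j => nodes x w 0 = nodes x w j → 0 = j) ?_ (fun j h => ?_) j
    · intro _; rfl
    · simp only [nodes, Fin.cons_zero, Fin.cons_succ] at h
      exact absurd h.symm (pow_ne_zero _ hx0)
  · refine Fin.cases (motive := fun j => nodes x w i.succ = nodes x w j → i.succ = j)
      ?_ (fun j h => ?_) j
    · intro h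
      simp only [nodes, Fin.cons_zero, Fin.cons_succ] at h
      exact absurd h (pow_ne_zero _ hx0)
    · simp only [nodes, Fin.cons_succ] at h
      rw [hw (pow_inj hx h)]

theorem exists_transcendental : ∃ x : ℂ, Transcendental ℚ x := by
  have h1 := transcendental_liouvilleNumber (m := 2) le_rfl
  refine ⟨algebraMap ℝ ℂ (liouvilleNumber 2), ?_⟩
  rw [transcendental_algebraMap_iff (algebraMap ℝ ℂ).injective]
  intro h
  exact h1 ((IsFractionRing.isAlgebraic_iff ℤ ℚ ℝ).2 h)

/-- For every `m ≥ 4` there are `m`-tuples `Λ ∼ Λ'` of pairwise distinct complex numbers that are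
not related by `Λ' i = a + b * φ (Λ i)` with a field automorphism `φ`. -/
theorem result (m : ℕ) (hm : 4 ≤ m) :
    ∃ Λ Λ' : Fin m → ℂ, Function.Injective Λ ∧ Function.Injective Λ' ∧ DopeEquiv Λ Λ' ∧
      ¬ ∃ (a b : ℂ) (φ : ℂ ≃+* ℂ), b ≠ 0 ∧ ∀ i, Λ' i = a + b * φ (Λ i) := by
  obtain ⟨r, rfl⟩ : ∃ r, m = r + 3 + 1 := ⟨m - 4, by omega⟩
  obtain ⟨x, hx⟩ := exists_transcendental
  set w : Fin (r + 3) → ℕ := fun i => i with hw
  set w' : Fin (r + 3) → ℕ := fun i => if (i : ℕ) < 2 then i else i + 1 with hw'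
  have hwi : Function.Injective w := fun i j h => Fin.ext h
  have hwi' : Function.Injective w' := by
    intro i j h
    simp only [hw'] at h
    apply Fin.ext
    split_ifs at h <;> omega
  refine ⟨nodes x w, nodes x w', nodes_injective hx hwi, nodes_injective hx hwi',
    dopeEquiv (by omega) (PB_nodes hx hwi) (PB_nodes hx hwi'), ?_⟩
  rintro ⟨a, b, φ, -, h⟩
  have h0 := h 0
  have h1 := h (Fin.succ ⟨0, by omega⟩)
  have h2 := h (Fin.succ ⟨1, by omega⟩)
  have h3 := h (Fin.succ ⟨2, by omega⟩)
  simp only [nodes, Fin.cons_zero, Fin.cons_succ, hw, hw'] at h0 h1 h2 h3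
  norm_num at h0 h1 h2 h3
  subst h0
  rw [zero_add] at h1 h2 h3
  rw [← h1, one_mul] at h2 h3
  rw [← h2] at h3
  exact absurd (pow_inj hx h3) (by norm_num)

end Pool.Agent.Results.MP_344d54_co.FourNodes
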